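import Pool.Agent.Lib.MP_7b6e24_nt.Main

open scoped Nat

namespace Pool.Agent.Results.MP_7b6e24_nt.ManyRoots

theorem result : ∃ C : ℕ, ∀ x G : ℕ,
    {p : ℕ | p.Prime ∧ p ≤ x ∧
      ∃ a : ℤ, G ≤ {n : ℕ | n < p ∧ (n ! : ℤ) ≡ a [ZMOD p]}.ncard}.ncard * G ^ 5 ≤ C * x ^ 4 := by
  classical
  refine ⟨2 ^ 19, fun x G => ?_⟩
  have hsub : {p : ℕ | p.Prime ∧ p ≤ x ∧
      ∃ a : ℤ, G ≤ {n : ℕ | n < p ∧ (n ! : ℤ) ≡ a [ZMOD p]}.ncard} ⊆
      (((Finset.range (x + 1)).filter fun p => p.Prime ∧ Lib.MP_7b6e24.Bad G p : Finset ℕ) :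
        Set ℕ) := by
    rintro p ⟨hp, hpx, a, ha⟩
    have hp0 : (p : ℤ) ≠ 0 := by exact_mod_cast hp.ne_zero
    rw [Finset.mem_coe, Finset.mem_filter, Finset.mem_range]
    refine ⟨by omega, hp, (a % p).toNat, ?_, ?_⟩
    · rw [Finset.mem_range]
      have h1 := Int.emod_lt_of_pos a (by exact_mod_cast hp.pos : (0 : ℤ) < p)
      have h2 := Int.emod_nonneg a hp0
      omega
    · refine ha.trans ?_
      rw [← Set.ncard_coe_finset]
      apply Set.ncard_le_ncard _ (Finset.finite_toSet _)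
      rintro n ⟨hn, hna⟩
      rw [Finset.mem_coe, Finset.mem_filter, Finset.mem_range]
      refine ⟨hn, ?_⟩
      have h3 : ((n ! : ℤ)) % p = a % p := hna
      have h4 : ((n ! % p : ℕ) : ℤ) = a % p := by rw [Int.natCast_mod]; exact h3
      omega
  have h1 := Set.ncard_le_ncard hsub (Finset.finite_toSet _)
  rw [Set.ncard_coe_finset] at h1
  exact (Nat.mul_le_mul_right _ h1).trans (Lib.MP_7b6e24.main G x)

end Pool.Agent.Results.MP_7b6e24_nt.ManyRoots
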